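import Pool.Agent.Q321.EL.Sim

/-!
# Three active letters in each table suffice for all ET0L languages

Every ET0L language is generated by an ET0L system in every table of which at most three letters
are rewritten to something else than themselves. So the hierarchy of the `k`-restricted ET0L
languages is constant from `k = 3` on: the collapse threshold is `2` or `3`.

The control of the simulation is stored in the *absent* letter of a set of locks: the word contains
the lock `z t` of every state `t` except the current one. The table `z s' → z s`, `z s → dead`,
`c → β` can be applied (without producing the dead letter) only in the state `s`; it leads to the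
state `s'` and rewrites all occurrences of the one data letter `c`.
-/

namespace Pool.Agent.Results.MP_4de4a9_lc.ThreeActiveLetters

open Pool.Agent.Q321.EL

/-- **The collapse threshold of the `k`-restricted ET0L hierarchy is at most three**, and the
`3`-restricted ET0L systems generate all ET0L languages. -/
theorem result :
    (∀ k : ℕ, 3 ≤ k → ∀ (T : Type) [Finite T], ET0Lr k T = ET0Lr (k + 1) T) ∧
    (∀ (T : Type) [Finite T], ET0Lr 3 T = ET0L T) :=
  ⟨fun _ hk T _ => (et0lr_eq hk T).trans (et0lr_eq (hk.trans (Nat.le_succ _)) T).symm,
    fun T _ => et0lr_eq le_rfl T⟩

end Pool.Agent.Results.MP_4de4a9_lc.ThreeActiveLetters
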